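import Mathlib

/-!
# A triplet cover of a binary phylogenetic tree that is not shellable

MP_66d22e_co, Q1 (negated form): there is a binary phylogenetic tree with 12 leaves and a triplet
cover of it (with 27 pairs) that is not shellable.

The leaves are the points `4 * i + j` of a `3 × 4` grid (`i < 3`, `j < 4`) and the tree is
`(4,((0,2),10),(6,((9,(8,((5,(3,1)),11))),7)))` in Newick notation.  The ten triples of the cover
are the four columns `{j, 4 + j, 8 + j}` and two triples inside each of the three rows.  All pairs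
of the cover lie in the rows and the columns of the grid, and no four points span exactly five of
the thirty pairs that lie in a row or a column; so no pair outside the rows and columns can ever be
added.
-/

namespace Pool.Agent.Results.MP_66d22e_co.NonShellableTripletCover

open SimpleGraph

/-- A binary phylogenetic `X`-tree: a finite tree whose leaves are the vertices `leaf x`, `x : X`
(bijectively labelled by `X`, all of degree one) and in which every other (interior) vertex has
degree three. -/
structure BinaryTree (X : Type) where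
  /-- the vertices -/
  V : Type
  /-- there are finitely many vertices -/
  finite : Finite V
  /-- the underlying graph -/
  G : SimpleGraph V
  /-- it is a tree -/
  isTree : G.IsTree
  /-- the labelling of the leaves -/
  leaf : X → V
  leaf_injective : Function.Injective leaf
  degree_leaf : ∀ x, (G.neighborSet (leaf x)).ncard = 1
  degree_interior : ∀ v, v ∉ Set.range leaf → (G.neighborSet v).ncard = 3

/-- The leaves `a` and `b` lie in different connected components of `T` with the vertex `v` and
its incident edges removed. -/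
def Separates {X : Type} (T : BinaryTree X) (v : T.V) (a b : X) : Prop :=
  ∃ (ha : T.leaf a ∈ ({v}ᶜ : Set T.V)) (hb : T.leaf b ∈ ({v}ᶜ : Set T.V)),
    ¬ (T.G.induce ({v}ᶜ : Set T.V)).Reachable ⟨T.leaf a, ha⟩ ⟨T.leaf b, hb⟩

/-- The triple `abc` supports the interior vertex `v` relative to `𝒯`. -/
def Supports {X : Type} (T : BinaryTree X) (𝒯 : Set (Sym2 X)) (v : T.V) (a b c : X) : Prop :=
  Separates T v a b ∧ Separates T v a c ∧ Separates T v b c ∧
    s(a, b) ∈ 𝒯 ∧ s(a, c) ∈ 𝒯 ∧ s(b, c) ∈ 𝒯

/-- `𝒯`, a set of 2-subsets of `X`, is a triplet cover for `T`: every interior vertex is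
supported by some triple. -/
def IsTripletCover {X : Type} (T : BinaryTree X) (𝒯 : Set (Sym2 X)) : Prop :=
  (∀ e ∈ 𝒯, ¬ e.IsDiag) ∧
    ∀ v, v ∉ Set.range T.leaf → ∃ a b c : X, Supports T 𝒯 v a b c

/-- The restriction of `T` to the distinct leaves `x, a, y, b` is the quartet `xa|yb`: the path
from `x` to `a` and the path from `y` to `b` are vertex-disjoint. -/
def Quartet {X : Type} (T : BinaryTree X) (x a y b : X) : Prop :=
  ∃ (p : T.G.Walk (T.leaf x) (T.leaf a)) (q : T.G.Walk (T.leaf y) (T.leaf b)),
    p.IsPath ∧ q.IsPath ∧ p.support.Disjoint q.support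

/-- `𝒯` is `T`-shellable: the 2-subsets of `X` outside `𝒯` can be ordered as
`a₁b₁, …, aₘbₘ` such that for every `i` there are distinct `xᵢ, yᵢ` outside `{aᵢ, bᵢ}` for which
`T` restricts to the quartet `xᵢaᵢ|yᵢbᵢ` on `Yᵢ = {aᵢ, bᵢ, xᵢ, yᵢ}` and every 2-subset of `Yᵢ`
other than `aᵢbᵢ` is in `𝒯` or is one of the earlier `aⱼbⱼ`. -/
def Shellable {X : Type} (T : BinaryTree X) (𝒯 : Set (Sym2 X)) : Prop :=
  ∃ L : List (Sym2 X), L.Nodup ∧ (∀ e : Sym2 X, e ∈ L ↔ ¬ e.IsDiag ∧ e ∉ 𝒯) ∧
    ∀ (i : ℕ) (hi : i < L.length), ∃ a b x y : X, L[i] = s(a, b) ∧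
      x ≠ a ∧ x ≠ b ∧ y ≠ a ∧ y ≠ b ∧ x ≠ y ∧ Quartet T x a y b ∧
      ∀ e ∈ ({s(x, a), s(x, b), s(y, a), s(y, b), s(x, y)} : Set (Sym2 X)),
        e ∈ 𝒯 ∨ e ∈ L.take i

/-! ## The example -/

/-- bit masks of the neighbourhoods of the 22 vertices of the tree; `0, …, 11` are the leaves. -/
def nbrMask : Fin 22 → ℕ :=
  ![16384, 65536, 16384, 65536, 4096, 8192, 131072, 2097152, 524288, 262144, 32768, 1048576,
    163856, 1114144, 32773, 21504, 8202, 2101312, 2621952, 1310976, 534528, 393344]

/-- the tree -/
def tree : SimpleGraph (Fin 22) where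
  Adj u v := (nbrMask u).testBit v.val = true
  symm := ⟨by decide +kernel⟩
  loopless := ⟨by decide +kernel⟩

instance : DecidableRel tree.Adj := fun u v =>
  inferInstanceAs (Decidable ((nbrMask u).testBit v.val = true))

/-- the parent of a vertex when the tree is rooted at the vertex `12` -/
def par : Fin 22 → Fin 22 :=
  ![14, 16, 14, 16, 12, 13, 17, 21, 19, 18, 15, 20, 12, 20, 15, 12, 13, 12, 21, 18, 19, 17]

theorem reach_par (v : Fin 22) (k : ℕ) : tree.Reachable v (par^[k] v) := by
  have h : ∀ u : Fin 22, u = par u ∨ tree.Adj u (par u) := by decide +kernel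
  induction k with
  | zero => exact Reachable.refl _
  | succ k ih =>
    rw [Function.iterate_succ_apply']
    rcases h (par^[k] v) with h1 | h1
    · rw [← h1]; exact ih
    · exact ih.trans h1.reachable

theorem connected : tree.Connected := by
  have h : ∀ v : Fin 22, par^[22] v = 12 := by decide +kernel
  refine (connected_iff _).2 ⟨fun u v => ?_, ⟨0⟩⟩
  have hu := reach_par u 22
  have hv := reach_par v 22
  rw [h u] at hu
  rw [h v] at hv
  exact hu.trans hv.symm

theorem degrees : ∀ v : Fin 22, tree.degree v = if v.val < 12 then 1 else 3 := by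
  decide +kernel

theorem card_edges : tree.edgeFinset.card = 21 := by
  have h := tree.sum_degrees_eq_twice_card_edges
  have h2 : ∑ v : Fin 22, tree.degree v = 42 := by
    simp only [degrees]
    decide +kernel
  omega

theorem isTree : tree.IsTree := by
  rw [isTree_iff_connected_and_card]
  refine ⟨connected, ?_⟩
  have h := card_edges
  rw [Nat.card_eq_fintype_card, Nat.card_eq_fintype_card, ← edgeFinset_card, h]
  rfl

/-- the binary phylogenetic tree with leaf set `{0, …, 11}` -/
def T : BinaryTree (Fin 12) where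
  V := Fin 22
  finite := inferInstance
  G := tree
  isTree := isTree
  leaf := fun i => ⟨i.val, by omega⟩
  leaf_injective := by
    intro a b h
    simpa [Fin.ext_iff] using h
  degree_leaf := by
    intro x
    have h := degrees ⟨x.val, by omega⟩
    rw [if_pos x.isLt] at h
    rw [Set.ncard_eq_toFinset_card']
    exact h
  degree_interior := by
    intro v hv
    have h := degrees v
    have h2 : ¬ v.val < 12 := by
      intro h3
      exact hv ⟨⟨v.val, h3⟩, by ext; rfl⟩
    rw [if_neg h2] at h
    rw [Set.ncard_eq_toFinset_card']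
    exact h

/-- `hop v u` is the vertex that follows the interior vertex `v` on the path from `v` to `u`,
for `u ≠ v` (rows are indexed by `v = 12, …, 21`). -/
def hopTable : List (List ℕ) :=
  [[15, 17, 15, 17, 4, 17, 17, 17, 17, 17, 15, 17, 12, 17, 15, 15, 17, 17, 17, 17, 17, 17],
    [20, 16, 20, 16, 20, 5, 20, 20, 20, 20, 20, 20, 20, 13, 20, 20, 16, 20, 20, 20, 20, 20],
    [0, 15, 2, 15, 15, 15, 15, 15, 15, 15, 15, 15, 15, 15, 14, 15, 15, 15, 15, 15, 15, 15],
    [14, 12, 14, 12, 12, 12, 12, 12, 12, 12, 10, 12, 12, 12, 14, 15, 12, 12, 12, 12, 12, 12],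
    [13, 1, 13, 3, 13, 13, 13, 13, 13, 13, 13, 13, 13, 13, 13, 13, 16, 13, 13, 13, 13, 13],
    [12, 21, 12, 21, 12, 21, 6, 21, 21, 21, 12, 21, 12, 21, 12, 12, 21, 17, 21, 21, 21, 21],
    [21, 19, 21, 19, 21, 19, 21, 21, 19, 9, 21, 19, 21, 19, 21, 21, 19, 21, 18, 19, 19, 21],
    [18, 20, 18, 20, 18, 20, 18, 18, 8, 18, 18, 20, 18, 20, 18, 18, 20, 18, 18, 19, 20, 18],
    [19, 13, 19, 13, 19, 13, 19, 19, 19, 19, 19, 11, 19, 13, 19, 19, 13, 19, 19, 19, 20, 19],
    [17, 18, 17, 18, 17, 18, 17, 7, 18, 18, 17, 18, 17, 18, 17, 17, 18, 17, 18, 18, 18, 21]]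

/-- see `hopTable` -/
def hop (v u : Fin 22) : ℕ := (hopTable.getD (v.val - 12) []).getD u.val 0

theorem hop_adj : ∀ v : Fin 22, 12 ≤ v.val → ∀ u w : Fin 22, tree.Adj u w → u ≠ v → w ≠ v →
    hop v u = hop v w := by
  decide +kernel

theorem not_reachable (v : Fin 22) (hv : 12 ≤ v.val) (a b : ({v}ᶜ : Set (Fin 22)))
    (h : hop v a.1 ≠ hop v b.1) : ¬ (tree.induce ({v}ᶜ : Set (Fin 22))).Reachable a b := by
  rintro ⟨w⟩
  apply h
  clear h
  induction w with
  | nil => rfl
  | @cons p q r hadj _ ih =>
    rw [← ih]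
    exact hop_adj v hv _ _ hadj p.2 q.2

/-- the 27 pairs of the triplet cover, as bit masks of neighbourhoods -/
def coverMask : Fin 12 → ℕ :=
  ![278, 557, 1099, 2182, 353, 722, 1204, 2152, 3601, 1314, 2884, 1416]

/-- the 30 pairs that lie in a row or a column of the grid -/
def closureMask : Fin 12 → ℕ :=
  ![286, 557, 1099, 2183, 481, 722, 1204, 2168, 3601, 3362, 2884, 1928]

/-- the supporting triples -/
def triple : Fin 22 → Fin 12 × Fin 12 × Fin 12 :=
  ![(0, 0, 0), (0, 0, 0), (0, 0, 0), (0, 0, 0), (0, 0, 0), (0, 0, 0), (0, 0, 0), (0, 0, 0),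
    (0, 0, 0), (0, 0, 0), (0, 0, 0), (0, 0, 0),
    (0, 4, 8), (1, 5, 9), (0, 1, 2), (2, 6, 10), (1, 2, 3),
    (4, 5, 6), (8, 9, 10), (8, 10, 11), (3, 7, 11), (5, 6, 7)]

/-- the set of 2-subsets given by the masks `m` -/
def pairs (m : Fin 12 → ℕ) : Set (Sym2 (Fin 12)) :=
  {e | ∃ a b : Fin 12, e = s(a, b) ∧ (m a).testBit b.val = true}

theorem mem_pairs {m : Fin 12 → ℕ}
    (hm : ∀ a b : Fin 12, (m a).testBit b.val = true → (m b).testBit a.val = true)
    (a b : Fin 12) : s(a, b) ∈ pairs m ↔ (m a).testBit b.val = true := by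
  constructor
  · rintro ⟨c, d, h, h2⟩
    rcases Sym2.eq_iff.1 h with ⟨h3, h4⟩ | ⟨h3, h4⟩
    · subst h3; subst h4; exact h2
    · subst h3; subst h4; exact hm _ _ h2
  · intro h
    exact ⟨a, b, rfl, h⟩

theorem cover_symm : ∀ a b : Fin 12, (coverMask a).testBit b.val = true →
    (coverMask b).testBit a.val = true := by decide +kernel

theorem closure_symm : ∀ a b : Fin 12, (closureMask a).testBit b.val = true →
    (closureMask b).testBit a.val = true := by decide +kernel

theorem cover_sub : ∀ a b : Fin 12, (coverMask a).testBit b.val = true →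
    (closureMask a).testBit b.val = true := by decide +kernel

/-- the closure property: four leaves spanning five pairs of the closure span six -/
theorem closed : ∀ a b x y : Fin 12, x ≠ a → x ≠ b → y ≠ a → y ≠ b → x ≠ y → a ≠ b →
    (closureMask x).testBit a.val = true → (closureMask x).testBit b.val = true →
    (closureMask y).testBit a.val = true → (closureMask y).testBit b.val = true →
    (closureMask x).testBit y.val = true → (closureMask a).testBit b.val = true := by
  decide +kernel

/-- the embedding of the leaves -/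
def lf (i : Fin 12) : Fin 22 := ⟨i.val, by omega⟩

theorem triple_hop : ∀ v : Fin 22, 12 ≤ v.val →
    hop v (lf (triple v).1) ≠ hop v (lf (triple v).2.1) ∧
    hop v (lf (triple v).1) ≠ hop v (lf (triple v).2.2) ∧
    hop v (lf (triple v).2.1) ≠ hop v (lf (triple v).2.2) ∧
    (coverMask (triple v).1).testBit (triple v).2.1.val = true ∧
    (coverMask (triple v).1).testBit (triple v).2.2.val = true ∧
    (coverMask (triple v).2.1).testBit (triple v).2.2.val = true := by
  decide +kernel

theorem separates (v : Fin 22) (hv : 12 ≤ v.val) (a b : Fin 12) (h : hop v (lf a) ≠ hop v (lf b)) :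
    Separates T v a b := by
  have ha : ∀ a : Fin 12, T.leaf a ∈ ({v}ᶜ : Set T.V) := by
    intro a h2
    have h3 : T.leaf a = v := h2
    have h4 : (T.leaf a).val = v.val := congrArg Fin.val h3
    have h5 : (T.leaf a).val = a.val := rfl
    have := a.isLt
    omega
  exact ⟨ha a, ha b, not_reachable v hv ⟨T.leaf a, ha a⟩ ⟨T.leaf b, ha b⟩ h⟩

theorem isTripletCover : IsTripletCover T (pairs coverMask) := by
  constructor
  · rintro e ⟨a, b, rfl, h⟩ h2
    have h3 : a = b := h2
    subst h3
    have h4 : ∀ a : Fin 12, (coverMask a).testBit a.val = false := by decide +kernel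
    rw [h4] at h
    exact absurd h (by decide)
  · intro v hv
    have hv2 : 12 ≤ (v : Fin 22).val := by
      by_contra h3
      exact hv ⟨⟨(v : Fin 22).val, by omega⟩, rfl⟩
    obtain ⟨h1, h2, h3, h4, h5, h6⟩ := triple_hop v hv2
    exact ⟨(triple v).1, (triple v).2.1, (triple v).2.2, separates v hv2 _ _ h1,
      separates v hv2 _ _ h2, separates v hv2 _ _ h3, (mem_pairs cover_symm _ _).2 h4,
      (mem_pairs cover_symm _ _).2 h5, (mem_pairs cover_symm _ _).2 h6⟩

theorem not_shellable : ¬ Shellable T (pairs coverMask) := by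
  rintro ⟨L, -, hL, hsh⟩
  have hsub : ∀ e ∈ pairs coverMask, e ∈ pairs closureMask := by
    rintro e ⟨a, b, rfl, h⟩
    exact ⟨a, b, rfl, cover_sub a b h⟩
  have key : ∀ (i : ℕ) (hi : i < L.length), L[i] ∈ pairs closureMask := by
    intro i
    induction i using Nat.strong_induction_on with
    | _ i ih =>
      intro hi
      obtain ⟨a, b, x, y, hab, h1, h2, h3, h4, h5, -, h6⟩ := hsh i hi
      have h7 : ∀ e ∈ ({s(x, a), s(x, b), s(y, a), s(y, b), s(x, y)} : Set (Sym2 (Fin 12))),
          e ∈ pairs closureMask := by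
        intro e he
        rcases h6 e he with h8 | h8
        · exact hsub e h8
        · obtain ⟨j, hj, hje⟩ := List.getElem_of_mem h8
          rw [List.getElem_take] at hje
          rw [List.length_take] at hj
          rw [← hje]
          exact ih j (by omega) (by omega)
      have hne : a ≠ b := by
        intro h
        have h9 : L[i] ∈ L := List.getElem_mem hi
        have h10 := ((hL _).1 h9).1
        rw [hab, h] at h10
        exact h10 rfl
      rw [hab, mem_pairs closure_symm]
      refine closed a b x y h1 h2 h3 h4 h5 hne ?_ ?_ ?_ ?_ ?_ <;>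
        rw [← mem_pairs closure_symm] <;> apply h7 <;> simp
  have h01 : s((0 : Fin 12), (5 : Fin 12)) ∈ L := by
    rw [hL]
    constructor
    · intro h
      exact absurd (show (0 : Fin 12) = 5 from h) (by decide)
    · rw [mem_pairs cover_symm]
      decide +kernel
  obtain ⟨i, hi, hie⟩ := List.getElem_of_mem h01
  have h := key i hi
  rw [hie, mem_pairs closure_symm] at h
  exact absurd h (by decide +kernel)

/-- Negated form of Q1: there are a binary phylogenetic `X`-tree (with `X` of 12 elements) and a
triplet cover for it that is not shellable. -/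
theorem result : ∃ (T : BinaryTree (Fin 12)) (𝒯 : Set (Sym2 (Fin 12))),
    IsTripletCover T 𝒯 ∧ ¬ Shellable T 𝒯 :=
  ⟨T, pairs coverMask, isTripletCover, not_shellable⟩

end Pool.Agent.Results.MP_66d22e_co.NonShellableTripletCover
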